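import Mathlib
import Pool.Agent.Helper43_LSA.Stmts

/-!
# Local search allocation: module LPC (the start of the lower potential)
-/

namespace Helper9.LSA

open Classical Helper43.LSA
open scoped ENNReal

noncomputable section

/-! ### Greedy pieces -/

theorem greedy {V : Type} [Fintype V] (G : SimpleGraph V) : ∀ (n : ℕ) (T : Finset V), T.card = n →
    ∃ (W : Finset V) (Gp : V → Finset V) (s : V → ℕ),
      (∀ w ∈ W, Gp w ⊆ cn G w) ∧ (∀ w ∈ W, (Gp w).Nonempty) ∧
      (W : Set V).PairwiseDisjoint Gp ∧ W.biUnion Gp = T ∧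
      (∀ w ∈ W, ∀ z ∈ Gp w, s z = (Gp w).card) ∧
      ∀ (y : V) (x : ℕ), ((cn G y ∩ T).filter fun z => s z ≤ x).card ≤ x := by
  intro n
  induction n using Nat.strong_induction_on with
  | _ n ih =>
  intro T hT
  rcases T.eq_empty_or_nonempty with rfl | hne
  · exact ⟨∅, fun _ => ∅, fun _ => 0, by simp, by simp, by simp, by simp, by simp, by simp⟩
  obtain ⟨t, ht⟩ := hne
  obtain ⟨w1, -, hw1⟩ := Finset.exists_max_image Finset.univ (fun w => (cn G w ∩ T).card)
    ⟨t, Finset.mem_univ t⟩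
  set P := cn G w1 ∩ T with hP
  have hPT : P ⊆ T := Finset.inter_subset_right
  have hPpos : 0 < P.card := by
    have h1 := hw1 t (Finset.mem_univ t)
    have h2 : 0 < (cn G t ∩ T).card :=
      Finset.card_pos.2 ⟨t, Finset.mem_inter.2 ⟨self_mem_cn G t, ht⟩⟩
    omega
  have hlt : (T \ P).card < n := by
    rw [Finset.card_sdiff_of_subset hPT, hT]
    have := Finset.card_le_card hPT
    omega
  obtain ⟨W, Gp, s, h1, h2, h3, h4, h5, h6⟩ := ih _ hlt (T \ P) rfl
  have hsub : ∀ w ∈ W, Gp w ⊆ T \ P := by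
    intro w hw z hz
    rw [← h4]
    exact Finset.mem_biUnion.2 ⟨w, hw, hz⟩
  have hw1W : w1 ∉ W := by
    intro hw
    obtain ⟨z, hz⟩ := h2 w1 hw
    have hzT := hsub w1 hw hz
    rw [Finset.mem_sdiff] at hzT
    exact hzT.2 (Finset.mem_inter.2 ⟨h1 w1 hw hz, hzT.1⟩)
  have hupd : ∀ w ∈ W, Function.update Gp w1 P w = Gp w := by
    intro w hw
    rw [Function.update_of_ne]
    rintro rfl
    exact hw1W hw
  have hupd1 : Function.update Gp w1 P w1 = P := Function.update_self _ _ _
  refine ⟨insert w1 W, Function.update Gp w1 P, fun z => if z ∈ P then P.card else s z,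
    ?_, ?_, ?_, ?_, ?_, ?_⟩
  · intro w hw
    rcases Finset.mem_insert.1 hw with rfl | hw
    · rw [hupd1]; exact Finset.inter_subset_left
    · rw [hupd w hw]; exact h1 w hw
  · intro w hw
    rcases Finset.mem_insert.1 hw with rfl | hw
    · rw [hupd1]; exact Finset.card_pos.1 hPpos
    · rw [hupd w hw]; exact h2 w hw
  · intro a ha b hb hab
    rw [Finset.mem_coe, Finset.mem_insert] at ha hb
    change Disjoint (Function.update Gp w1 P a) (Function.update Gp w1 P b)
    rcases ha with rfl | ha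
    · rcases hb with rfl | hb
      · exact absurd rfl hab
      · rw [hupd1, hupd b hb]
        exact Finset.disjoint_of_subset_right (hsub b hb) Finset.disjoint_sdiff
    · rcases hb with rfl | hb
      · rw [hupd1, hupd a ha]
        exact (Finset.disjoint_of_subset_right (hsub a ha) Finset.disjoint_sdiff).symm
      · rw [hupd a ha, hupd b hb]
        exact h3 (Finset.mem_coe.2 ha) (Finset.mem_coe.2 hb) hab
  · rw [Finset.biUnion_insert, hupd1]
    have : W.biUnion (Function.update Gp w1 P) = W.biUnion Gp :=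
      Finset.biUnion_congr rfl hupd
    rw [this, h4]
    exact Finset.union_sdiff_of_subset hPT
  · intro w hw z hz
    rcases Finset.mem_insert.1 hw with rfl | hw
    · rw [hupd1] at hz ⊢
      simp [hz]
    · rw [hupd w hw] at hz ⊢
      have := hsub w hw hz
      rw [Finset.mem_sdiff] at this
      simp only [this.2, if_false]
      exact h5 w hw z hz
  · intro y x
    by_cases hx : P.card ≤ x
    · calc _ ≤ (cn G y ∩ T).card := Finset.card_filter_le _ _
        _ ≤ P.card := hw1 y (Finset.mem_univ y)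
        _ ≤ x := hx
    · refine le_trans (Finset.card_le_card ?_) (h6 y x)
      intro z hz
      rw [Finset.mem_filter, Finset.mem_inter] at hz
      rw [Finset.mem_filter, Finset.mem_inter, Finset.mem_sdiff]
      have hzP : z ∉ P := by
        intro hzP
        have := hz.2
        simp only [hzP, if_true] at this
        omega
      have h7 := hz.2
      simp only [hzP, if_false] at h7
      exact ⟨⟨hz.1.1, hz.1.2, hzP⟩, h7⟩

/-! ### Sums of logarithms -/

/-- the counting property implies `|S|! ≤ ∏ s` -/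
theorem factorial_le_prod {V : Type} (s : V → ℕ) : ∀ (n : ℕ) (S : Finset V), S.card = n →
    (∀ x : ℕ, (S.filter fun z => s z ≤ x).card ≤ x) → n.factorial ≤ ∏ z ∈ S, s z := by
  intro n
  induction n with
  | zero =>
    intro S hS _
    rw [Finset.card_eq_zero] at hS
    simp [hS]
  | succ n ih =>
    intro S hS h
    have hne : S.Nonempty := Finset.card_pos.1 (by omega)
    obtain ⟨z0, hz0, hmax⟩ := Finset.exists_max_image S s hne
    have h1 : n + 1 ≤ s z0 := by
      have := h (s z0)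
      rw [Finset.filter_true_of_mem hmax] at this
      omega
    have h2 : (S.erase z0).card = n := by
      rw [Finset.card_erase_of_mem hz0]; omega
    have h3 := ih (S.erase z0) h2 fun x =>
      le_trans (Finset.card_le_card (Finset.filter_subset_filter _ (Finset.erase_subset _ _))) (h x)
    rw [← Finset.mul_prod_erase S s hz0, Nat.factorial_succ]
    exact Nat.mul_le_mul h1 h3

/-- the sum of the logarithms -/
theorem sum_log_ge {V : Type} (s : V → ℕ) (S : Finset V)
    (h : ∀ x : ℕ, (S.filter fun z => s z ≤ x).card ≤ x) :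
    (S.card : ℝ) * Real.log S.card - S.card ≤ ∑ z ∈ S, Real.log (s z) := by
  have hpos : ∀ z ∈ S, 0 < s z := by
    intro z hz
    by_contra h0
    have h1 := h 0
    have : z ∈ S.filter fun z => s z ≤ 0 := Finset.mem_filter.2 ⟨hz, by omega⟩
    have := Finset.card_pos.2 ⟨z, this⟩
    omega
  rw [← Real.log_prod (fun z hz => by
    have := hpos z hz
    positivity)]
  rcases Nat.eq_zero_or_pos S.card with h0 | h0
  · rw [Finset.card_eq_zero] at h0
    simp [h0]
  have h1 := factorial_le_prod s S.card S rfl h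
  have h2 : ((S.card : ℝ)) ^ S.card / (S.card.factorial : ℝ) ≤ Real.exp S.card :=
    Real.pow_div_factorial_le_exp _ (by positivity) _
  have hfac : (0 : ℝ) < (S.card.factorial : ℝ) := by exact_mod_cast Nat.factorial_pos _
  have hc : (0 : ℝ) < (S.card : ℝ) := by exact_mod_cast h0
  have h3 : (S.card : ℝ) ^ S.card ≤ Real.exp S.card * (S.card.factorial : ℝ) := by
    rwa [div_le_iff₀ hfac] at h2
  have h4 : (S.card.factorial : ℝ) ≤ ∏ z ∈ S, (s z : ℝ) := by exact_mod_cast h1
  have h5 := Real.log_le_log (by positivity) h3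
  rw [Real.log_pow, Real.log_mul (Real.exp_ne_zero _) hfac.ne', Real.log_exp] at h5
  have h6 := Real.log_le_log hfac h4
  linarith

/-- the key estimate for the admissibility -/
theorem sum_pos_le {V : Type} (s : V → ℕ) (S : Finset V)
    (h : ∀ x : ℕ, (S.filter fun z => s z ≤ x).card ≤ x) (M θ : ℝ) (hM : 0 < M) :
    ∑ z ∈ S, max (θ - 8 * Real.log (s z / M)) 0 ≤ 8 * M * Real.exp (θ / 8) := by
  have hpos : ∀ z ∈ S, 0 < s z := by
    intro z hz
    by_contra h0
    have h1 := h 0
    have : z ∈ S.filter fun z => s z ≤ 0 := Finset.mem_filter.2 ⟨hz, by omega⟩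
    have := Finset.card_pos.2 ⟨z, this⟩
    omega
  set S' := S.filter fun z => 0 < θ - 8 * Real.log (s z / M) with hS'
  have h1 : ∑ z ∈ S, max (θ - 8 * Real.log (s z / M)) 0 =
      ∑ z ∈ S', (θ - 8 * Real.log (s z / M)) := by
    rw [hS', Finset.sum_filter]
    refine Finset.sum_congr rfl fun z _ => ?_
    split
    · rename_i hz; exact max_eq_left hz.le
    · rename_i hz; exact max_eq_right (not_lt.1 hz)
  have h2 : ∀ x : ℕ, (S'.filter fun z => s z ≤ x).card ≤ x := fun x =>
    le_trans (Finset.card_le_card (Finset.filter_subset_filter _ (Finset.filter_subset _ _))) (h x)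
  have h3 := sum_log_ge s S' h2
  have h4 : ∑ z ∈ S', (θ - 8 * Real.log (s z / M)) =
      S'.card * (θ + 8 * Real.log M) - 8 * ∑ z ∈ S', Real.log (s z) := by
    have : ∀ z ∈ S', θ - 8 * Real.log (s z / M) = (θ + 8 * Real.log M) - 8 * Real.log (s z) := by
      intro z hz
      have hz' : 0 < s z := hpos z (Finset.filter_subset _ _ hz)
      rw [Real.log_div (by positivity) hM.ne']
      ring
    rw [Finset.sum_congr rfl this, Finset.sum_sub_distrib, Finset.sum_const, nsmul_eq_mul,
      Finset.mul_sum]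
  rw [h1, h4]
  rcases Nat.eq_zero_or_pos S'.card with h0 | h0
  · rw [Finset.card_eq_zero] at h0
    simp only [h0, Finset.card_empty, Nat.cast_zero, zero_mul, Finset.sum_empty, mul_zero, sub_zero]
    positivity
  have hc : (0 : ℝ) < (S'.card : ℝ) := by exact_mod_cast h0
  have hu : 0 < M * Real.exp (θ / 8) / S'.card := by positivity
  have h5 := Real.log_le_sub_one_of_pos hu
  rw [Real.log_div (by positivity) hc.ne', Real.log_mul hM.ne' (Real.exp_ne_zero _),
    Real.log_exp] at h5
  have h6 : (S'.card : ℝ) * (Real.log M + θ / 8 - Real.log S'.card) ≤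
      M * Real.exp (θ / 8) - S'.card := by
    have := mul_le_mul_of_nonneg_left h5 hc.le
    have h7 : (S'.card : ℝ) * (M * Real.exp (θ / 8) / S'.card - 1) =
        M * Real.exp (θ / 8) - S'.card := by
      field_simp
    linarith
  nlinarith

/-! ### Rootedness -/

theorem edist_le_one_of_mem_cn {V : Type} [Fintype V] {G : SimpleGraph V} {u v : V}
    (h : v ∈ cn G u) : G.edist u v ≤ 1 := by
  rcases mem_cn.1 h with rfl | h
  · simp
  · rw [SimpleGraph.edist_eq_one_iff_adj.2 h]

theorem rooted_pieces {V : Type} [Fintype V] {G : SimpleGraph V} {A T W : Finset V}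
    {Gp : V → Finset V} (hT : Rooted (Near G 2) A T) (h1 : ∀ w ∈ W, Gp w ⊆ cn G w)
    (h2 : ∀ w ∈ W, (Gp w).Nonempty) (h3 : (W : Set V).PairwiseDisjoint Gp)
    (h4 : W.biUnion Gp = T) : Rooted (Near G 4) (cns G A) W := by
  have hc : ∀ t ∈ T, ∃ w ∈ W, t ∈ Gp w := by
    intro t ht
    rw [← h4] at ht
    exact Finset.mem_biUnion.1 ht
  intro w hw
  obtain ⟨t, ht⟩ := h2 w hw
  have htT : t ∈ T := by rw [← h4]; exact Finset.mem_biUnion.2 ⟨w, hw, ht⟩
  obtain ⟨r, hrA, hrT, hpath⟩ := hT t htT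
  obtain ⟨w0, hw0, hr0⟩ := hc r hrT
  refine ⟨w0, ?_, hw0, ?_⟩
  · exact Finset.mem_biUnion.2 ⟨r, hrA, mem_cn_comm.1 (h1 w0 hw0 hr0)⟩
  · have key : ∀ t, Relation.ReflTransGen (fun a b => Near G 2 a b ∧ b ∈ T) r t →
        t ∈ T → ∀ w ∈ W, t ∈ Gp w →
        Relation.ReflTransGen (fun a b => Near G 4 a b ∧ b ∈ W) w0 w := by
      intro t hp
      induction hp with
      | refl =>
        intro _ w hw hrw
        have : w0 = w := by
          by_contra hne
          exact Finset.disjoint_left.1 (h3 (Finset.mem_coe.2 hw0) (Finset.mem_coe.2 hw) hne)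
            hr0 hrw
        rw [this]
      | tail hab hbc ih =>
        rename_i b c
        intro hcT w hw hcw
        have hbT : b ∈ T := by
          rcases hab.cases_tail with rfl | ⟨_, _, hb⟩
          · exact hrT
          · exact hb.2
        obtain ⟨w', hw', hbw'⟩ := hc b hbT
        have ih' := ih hbT w' hw' hbw'
        by_cases hww : w' = w
        · rw [← hww]; exact ih'
        · refine ih'.tail ⟨⟨hww, ?_⟩, hw⟩
          have e1 := edist_le_one_of_mem_cn (h1 w' hw' hbw')
          have e2 := hbc.1.2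
          have e3 := edist_le_one_of_mem_cn (mem_cn_comm.1 (h1 w hw hcw))
          calc G.edist w' w ≤ G.edist w' b + G.edist b w := SimpleGraph.edist_triangle
            _ ≤ G.edist w' b + (G.edist b c + G.edist c w) := by
                gcongr
                exact SimpleGraph.edist_triangle
            _ ≤ 1 + (2 + 1) := by
                gcongr
                exact_mod_cast e2
            _ = ((4 : ℕ) : ℕ∞) := by norm_num
    exact key t hpath htT w hw ht

/-! ### Numerical estimates -/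

/-- the weight of a piece -/
def phr (D s : ℕ) : ℝ := Real.exp (s * (8 * Real.log (30 * s / D) - 49))

theorem choose_phr_le {D s : ℕ} (hD : 1 ≤ D) (hs : 1 ≤ s) (hs' : s ≤ D + 1) :
    ((D + 1).choose s : ℝ) * phr D s ≤ (((D : ℝ) + 1) ^ 4)⁻¹ * (1 / 8) ^ s := by
  have hDr : (1 : ℝ) ≤ D := by exact_mod_cast hD
  have hsr : (1 : ℝ) ≤ s := by exact_mod_cast hs
  have hsr' : (s : ℝ) ≤ D + 1 := by exact_mod_cast hs'
  set N : ℝ := (D : ℝ) + 1 with hN
  have hNpos : 0 < N := by positivity
  have hspos : (0 : ℝ) < s := by linarith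
  -- the weight
  have h1 : phr D s ≤ (60 * s / N) ^ (8 * s) * Real.exp (-49 * s) := by
    have hle : (30 * s / D : ℝ) ≤ 60 * s / N := by
      rw [div_le_div_iff₀ (by linarith) hNpos]
      nlinarith
    have hlog : Real.log (30 * s / D) ≤ Real.log (60 * s / N) :=
      Real.log_le_log (by positivity) hle
    have : phr D s ≤ Real.exp (((8 * s : ℕ) : ℝ) * Real.log (60 * s / N) + -49 * s) := by
      unfold phr
      apply Real.exp_le_exp.2
      push_cast
      nlinarith
    rw [Real.exp_add, ← Real.log_pow, Real.exp_log (by positivity)] at this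
    exact this
  -- the binomial coefficient
  have h2 : ((D + 1).choose s : ℝ) ≤ (N * Real.exp 1 / s) ^ s := by
    have h3 : ((D + 1).choose s : ℝ) ≤ (((D + 1 : ℕ) : ℝ) ^ s) / (s.factorial : ℝ) :=
      Nat.choose_le_pow_div s (D + 1)
    have hfac : (0 : ℝ) < (s.factorial : ℝ) := by exact_mod_cast Nat.factorial_pos _
    have h4 : (s : ℝ) ^ s / (s.factorial : ℝ) ≤ Real.exp s :=
      Real.pow_div_factorial_le_exp _ (by positivity) _
    rw [div_le_iff₀ hfac] at h4
    refine h3.trans ?_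
    rw [div_pow, div_le_div_iff₀ hfac (by positivity), mul_pow]
    have h5 : Real.exp 1 ^ s = Real.exp s := by rw [← Real.exp_nat_mul]; simp
    rw [h5]
    have h6 : (0 : ℝ) ≤ N ^ s := by positivity
    have h7 := mul_le_mul_of_nonneg_left h4 h6
    have h8 : (((D + 1 : ℕ) : ℝ)) = N := by rw [hN]; push_cast; ring
    rw [h8]
    linarith
  have h9 : ((D + 1).choose s : ℝ) * phr D s ≤
      (N * Real.exp 1 / s) ^ s * ((60 * s / N) ^ (8 * s) * Real.exp (-49 * s)) :=
    mul_le_mul h2 h1 (Real.exp_pos _).le (by positivity)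
  refine h9.trans ?_
  have h10 : (N * Real.exp 1 / s) ^ s * ((60 * s / N) ^ (8 * s) * Real.exp (-49 * s)) =
      (60 ^ 8 * Real.exp (-48)) ^ s * (s / N) ^ (7 * s) := by
    have e1 : Real.exp (-49 * s) = Real.exp (-49) ^ s := by
      rw [← Real.exp_nat_mul]; ring_nf
    rw [e1, pow_mul, pow_mul (s / N : ℝ), ← mul_pow, ← mul_pow, ← mul_pow]
    congr 1
    have e2 : Real.exp (-48) = Real.exp 1 * Real.exp (-49) := by
      rw [← Real.exp_add]; norm_num
    rw [e2]
    field_simp
  rw [h10]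
  have h11 : (s / N : ℝ) ^ (7 * s) ≤ (s / N) ^ 4 := by
    apply pow_le_pow_of_le_one (by positivity)
    · rw [div_le_one hNpos]; exact hsr'
    · omega
  have h12 : (s : ℝ) ^ 4 ≤ 16 ^ s := by
    have : (s : ℝ) ≤ 2 ^ s := by
      have := Nat.lt_two_pow_self (n := s)
      exact_mod_cast this.le
    calc (s : ℝ) ^ 4 ≤ (2 ^ s) ^ 4 := by gcongr
      _ = 16 ^ s := by rw [← pow_mul, mul_comm, pow_mul]; norm_num
  have h13 : (16 : ℝ) * (60 ^ 8 * Real.exp (-48)) ≤ 1 / 8 := by
    have he : (2.7 : ℝ) < Real.exp 1 := lt_trans (by norm_num) Real.exp_one_gt_d9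
    have he2 : (2.7 : ℝ) ^ 48 ≤ Real.exp 48 := by
      have : Real.exp 48 = Real.exp 1 ^ 48 := by rw [← Real.exp_nat_mul]; norm_num
      rw [this]
      gcongr
    rw [Real.exp_neg]
    have hpos : (0 : ℝ) < Real.exp 48 := Real.exp_pos _
    rw [← mul_assoc, mul_inv_le_iff₀ hpos]
    have : (16 : ℝ) * 60 ^ 8 ≤ 1 / 8 * 2.7 ^ 48 := by norm_num
    linarith
  calc (60 ^ 8 * Real.exp (-48)) ^ s * (s / N : ℝ) ^ (7 * s)
      ≤ (60 ^ 8 * Real.exp (-48)) ^ s * (s / N) ^ 4 := by gcongr
    _ = (N ^ 4)⁻¹ * ((60 ^ 8 * Real.exp (-48)) ^ s * (s : ℝ) ^ 4) := by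
        rw [div_pow]; field_simp
    _ ≤ (N ^ 4)⁻¹ * ((60 ^ 8 * Real.exp (-48)) ^ s * 16 ^ s) := by gcongr
    _ = (N ^ 4)⁻¹ * (16 * (60 ^ 8 * Real.exp (-48))) ^ s := by
        rw [← mul_pow]; ring
    _ ≤ (N ^ 4)⁻¹ * (1 / 8) ^ s := by gcongr

theorem sum_eighth_le (D : ℕ) : ∑ s ∈ Finset.Icc 1 (D + 1), (1 / 8 : ℝ) ^ s ≤ Real.exp (-1) := by
  have h1 : ∀ n : ℕ, ∑ s ∈ Finset.Icc 1 n, (1 / 8 : ℝ) ^ s ≤ 1 / 7 - 1 / 7 * (1 / 8) ^ n := by
    intro n
    induction n with
    | zero => simp
    | succ n ih =>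
      rw [Finset.sum_Icc_succ_top (by omega)]
      rw [pow_succ]
      linarith
  have h2 : (1 / 7 : ℝ) ≤ Real.exp (-1) := by
    rw [Real.exp_neg, one_div]
    apply inv_anti₀ (Real.exp_pos _)
    have := Real.exp_one_lt_d9
    linarith
  have h3 : (0 : ℝ) ≤ 1 / 7 * (1 / 8) ^ (D + 1) := by positivity
  linarith [h1 (D + 1)]

theorem dl_eq (D : ℕ) : dl D = ENNReal.ofReal ((((D : ℝ) + 1) ^ 4)⁻¹) := by
  unfold dl
  rw [ENNReal.ofReal_inv_of_pos (by positivity), ENNReal.ofReal_pow (by positivity),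
    ENNReal.ofReal_add (by positivity) (by norm_num), ENNReal.ofReal_natCast, ENNReal.ofReal_one]

theorem dl3_eq (D : ℕ) : dl3 D = ENNReal.ofReal (2 * (((D : ℝ) + 1) ^ 3)⁻¹) := by
  unfold dl3
  rw [ENNReal.ofReal_mul (by norm_num), ENNReal.ofReal_inv_of_pos (by positivity),
    ENNReal.ofReal_pow (by positivity),
    ENNReal.ofReal_add (by positivity) (by norm_num), ENNReal.ofReal_natCast, ENNReal.ofReal_one]
  norm_num

/-- numerical condition of module ENUM -/
theorem phi_cond {D : ℕ} (hD : 1 ≤ D) :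
    ∑ s ∈ Finset.Icc 1 (D + 1), ((D + 1).choose s : ℝ≥0∞) * ENNReal.ofReal (phr D s) ≤
      ENNReal.ofReal (Real.exp (-1)) * dl D := by
  have h1 : ∀ s ∈ Finset.Icc 1 (D + 1), ((D + 1).choose s : ℝ≥0∞) * ENNReal.ofReal (phr D s) ≤
      ENNReal.ofReal ((((D : ℝ) + 1) ^ 4)⁻¹ * (1 / 8) ^ s) := by
    intro s hs
    rw [Finset.mem_Icc] at hs
    rw [← ENNReal.ofReal_natCast, ← ENNReal.ofReal_mul (by positivity)]
    exact ENNReal.ofReal_le_ofReal (choose_phr_le hD hs.1 hs.2)
  refine (Finset.sum_le_sum h1).trans ?_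
  rw [← ENNReal.ofReal_sum_of_nonneg (fun _ _ => by positivity), ← Finset.mul_sum, dl_eq,
    ← ENNReal.ofReal_mul (Real.exp_pos _).le]
  apply ENNReal.ofReal_le_ofReal
  rw [mul_comm]
  exact mul_le_mul_of_nonneg_right (sum_eighth_le D) (by positivity)

theorem one_add_dl_pow_le (D : ℕ) (hD : 1 ≤ D) : (1 + dl D) ^ (D + 1) ≤ 1 + dl3 D := by
  rw [dl_eq, dl3_eq]
  rw [show (1 : ℝ≥0∞) = ENNReal.ofReal 1 by simp, ← ENNReal.ofReal_add (by norm_num) (by positivity),
    ← ENNReal.ofReal_add (by norm_num) (by positivity), ← ENNReal.ofReal_pow (by positivity)]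
  apply ENNReal.ofReal_le_ofReal
  have hDr : (1 : ℝ) ≤ D := by exact_mod_cast hD
  set N : ℝ := (D : ℝ) + 1 with hN
  have hNpos : 0 < N := by positivity
  have h1 : (1 + (N ^ 4)⁻¹) ^ (D + 1) ≤ Real.exp ((N ^ 3)⁻¹) := by
    have h2 : 1 + (N ^ 4)⁻¹ ≤ Real.exp ((N ^ 4)⁻¹) := by
      have := Real.add_one_le_exp ((N ^ 4)⁻¹)
      linarith
    calc (1 + (N ^ 4)⁻¹) ^ (D + 1) ≤ Real.exp ((N ^ 4)⁻¹) ^ (D + 1) := by gcongr
      _ = Real.exp ((N ^ 3)⁻¹) := by
          rw [← Real.exp_nat_mul]
          congr 1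
          have : ((D + 1 : ℕ) : ℝ) = N := by rw [hN]; push_cast; ring
          rw [this]
          field_simp
  have h3 : (N ^ 3)⁻¹ ≤ 1 := by
    apply inv_le_one_of_one_le₀
    apply one_le_pow₀
    linarith
  have h4 : Real.exp ((N ^ 3)⁻¹) ≤ 1 + 2 * (N ^ 3)⁻¹ := by
    set x := (N ^ 3)⁻¹ with hx
    have hx0 : 0 ≤ x := by positivity
    have := Real.abs_exp_sub_one_sub_id_le (x := x) (by rw [abs_of_nonneg hx0]; exact h3)
    have h5 := (abs_le.1 this).2
    nlinarith
  exact h1.trans h4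

theorem card_cns_le {V : Type} [Fintype V] {G : SimpleGraph V} {D : ℕ} (hG : Reg G D)
    (A : Finset V) : (cns G A).card ≤ (D + 1) * A.card := by
  unfold cns
  refine Finset.card_biUnion_le.trans ?_
  rw [Finset.sum_congr rfl fun v _ => card_cn hG v, Finset.sum_const, smul_eq_mul, mul_comm]

/-! ### The module -/

theorem lpc (hA : LpaStmt) (hE : EnumStmt) : LpcStmt := by
  intro V _ G D hD hG A
  have hDr : (0 : ℝ) < D := by exact_mod_cast hD
  have hM : (0 : ℝ) < 1 / 30 * D := by positivity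
  have key := hE V G D hG (fun s => ENNReal.ofReal (phr D s)) (phi_cond hD) (cns G A)
    (fun T => ENNReal.ofReal (Real.exp (Phi G D (1 / 30) T - 49 * T.card)))
    (Finset.univ.filter fun T : Finset V => Rooted (Near G 2) A T) ?_
  · refine key.trans ?_
    calc (1 + dl D) ^ (cns G A).card ≤ (1 + dl D) ^ ((D + 1) * A.card) := by
          apply pow_le_pow_right₀
          · exact le_self_add
          · exact card_cns_le hG A
      _ = ((1 + dl D) ^ (D + 1)) ^ A.card := by rw [pow_mul]
      _ ≤ (1 + dl3 D) ^ A.card := by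
          gcongr
          exact one_add_dl_pow_le D hD
  · intro T hT
    rw [Finset.mem_filter] at hT
    obtain ⟨W, Gp, s, h1, h2, h3, h4, h5, h6⟩ := greedy G T.card T rfl
    refine ⟨W, Gp, ⟨rooted_pieces hT.2 h1 h2 h3 h4, h1, h2, h3, h4⟩, ?_⟩
    -- admissible dual variables
    set α : V → ℝ := fun z => min 16 (8 * Real.log (s z / (1 / 30 * D))) with hα
    have hadm : Adm G D (1 / 30) T α := by
      refine ⟨fun z _ => min_le_left _ _, fun y θ hθ => ?_⟩
      have e1 : ∀ z ∈ cn G y ∩ T, max (θ - α z) 0 =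
          max (θ - 8 * Real.log (s z / (1 / 30 * D))) 0 := by
        intro z _
        simp only [hα]
        rcases le_total (16 : ℝ) (8 * Real.log (s z / (1 / 30 * D))) with h | h
        · rw [min_eq_left h, max_eq_right (by linarith), max_eq_right (by linarith)]
        · rw [min_eq_right h]
      rw [Finset.sum_congr rfl e1]
      have := sum_pos_le s (cn G y ∩ T) (h6 y) (1 / 30 * D) θ hM
      calc _ ≤ 8 * (1 / 30 * (D : ℝ)) * Real.exp (θ / 8) := this
        _ = _ := by ring
    have hPhi := hA.le_of_adm V G D (1 / 30) T α (by norm_num) hadm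
    have hsum : Phi G D (1 / 30) T - 49 * T.card ≤
        ∑ w ∈ W, ((Gp w).card : ℝ) * (8 * Real.log (30 * (Gp w).card / D) - 49) := by
      have e2 : ∑ z ∈ T, α z - 49 * T.card = ∑ z ∈ T, (α z - 49) := by
        rw [Finset.sum_sub_distrib, Finset.sum_const, nsmul_eq_mul]; ring
      have e3 : ∑ z ∈ T, (α z - 49) = ∑ w ∈ W, ∑ z ∈ Gp w, (α z - 49) := by
        conv_lhs => rw [← h4]
        rw [Finset.sum_biUnion h3]
      have e4 : ∀ w ∈ W, ∑ z ∈ Gp w, (α z - 49) ≤
          ((Gp w).card : ℝ) * (8 * Real.log (30 * (Gp w).card / D) - 49) := by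
        intro w hw
        rw [← nsmul_eq_mul, ← Finset.sum_const]
        refine Finset.sum_le_sum fun z hz => ?_
        simp only [hα]
        rw [h5 w hw z hz]
        have : ((Gp w).card : ℝ) / (1 / 30 * D) = 30 * (Gp w).card / D := by
          field_simp
        rw [this]
        have := min_le_right (16 : ℝ) (8 * Real.log (30 * (Gp w).card / D))
        linarith
      calc _ ≤ ∑ z ∈ T, α z - 49 * T.card := by linarith
        _ = ∑ w ∈ W, ∑ z ∈ Gp w, (α z - 49) := by rw [e2, e3]
        _ ≤ _ := Finset.sum_le_sum e4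
    calc ENNReal.ofReal (Real.exp (Phi G D (1 / 30) T - 49 * T.card))
        ≤ ENNReal.ofReal (∏ w ∈ W, phr D (Gp w).card) := by
          apply ENNReal.ofReal_le_ofReal
          unfold phr
          rw [← Real.exp_sum]
          exact Real.exp_le_exp.2 hsum
      _ = ∏ w ∈ W, ENNReal.ofReal (phr D (Gp w).card) :=
          ENNReal.ofReal_prod_of_nonneg fun _ _ => (Real.exp_pos _).le

end

end Helper9.LSA
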