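import Mathlib
import Pool.Agent.Helper43_LSA.Stmts
import Pool.Agent.Helper9_LSA.LPC

/-!
# Local search allocation: module UPPH (one phase of the upper potential)
-/

namespace Helper9.LSA

open Classical Helper43.LSA
open scoped ENNReal

noncomputable section

section Up

variable {V : Type} [Fintype V]

theorem closed_anti {G : SimpleGraph V} {D b : ℕ} {X Y : V → ℕ} {T : Finset V} (hXY : X ≤ Y)
    (h : Closed G D b Y T) : Closed G D b X T := by
  intro w hw
  have hsub : (nbr G w ∩ hiSet X b) \ T ⊆ (nbr G w ∩ hiSet Y b) \ T := by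
    intro v hv
    rw [Finset.mem_sdiff, Finset.mem_inter] at hv ⊢
    refine ⟨⟨hv.1.1, ?_⟩, hv.2⟩
    have := hv.1.2
    simp only [hiSet, Finset.mem_filter, Finset.mem_univ, true_and] at this ⊢
    exact this.trans (hXY v)
  rcases h w hw with h | h
  · left
    rw [h] at hsub
    exact Finset.subset_empty.1 hsub
  · right
    exact lt_of_le_of_lt (Nat.mul_le_mul_left 8 (Finset.card_le_card hsub)) h

theorem mup_bump (b : ℕ) (X : V → ℕ) (w : V) (S : Finset V) :
    mup b (bump X w) S = mup b X S + if w ∈ S ∧ b ≤ X w + 1 then 1 else 0 := by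
  unfold mup
  by_cases hw : w ∈ S
  · rw [← Finset.add_sum_erase S _ hw, ← Finset.add_sum_erase S (fun v => X v + 1 - b) hw]
    have : ∑ v ∈ S.erase w, (bump X w v + 1 - b) = ∑ v ∈ S.erase w, (X v + 1 - b) :=
      Finset.sum_congr rfl fun v hv => by rw [bump_of_ne X (Finset.ne_of_mem_erase hv)]
    rw [this, bump_self]
    by_cases h : b ≤ X w + 1
    · rw [if_pos ⟨hw, h⟩]; omega
    · rw [if_neg (fun h' => h h'.2)]; omega
  · rw [if_neg (fun h => hw h.1), add_zero]
    exact Finset.sum_congr rfl fun v hv => by rw [bump_of_ne X (by rintro rfl; exact hw hv)]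

/-- the weight of a state for the pair `T, S` -/
def wt (G : SimpleGraph V) (D b : ℕ) (a : ℝ≥0∞) (T S : Finset V) (X : V → ℕ) : ℝ≥0∞ :=
  if Closed G D b X T then a ^ mup b X S else 0

theorem step_le (hU : UprStmt) {G : SimpleGraph V} {D : ℕ} (hG : Reg G D) {q : PMF V}
    {Q a : ℝ≥0∞} (hq : ∀ u, q u ≤ Q) {b : ℕ} (hb : 1 ≤ b) {T S : Finset V} (h1 : T ⊆ S)
    (h2 : S ⊆ T ∪ BdSet G D T) {Y : V → ℕ} (hY : Smooth G Y) :
    ex (stepLaw G q Y) (wt G D b a T S) ≤ wt G D b a T S Y * (1 + 6 * Q * a * S.card) := by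
  have h0 : ∀ w, ¬ Closed G D b Y T → wt G D b a T S (bump Y w) = 0 := by
    intro w hC
    unfold wt
    rw [if_neg]
    exact fun h => hC (closed_anti (le_bump Y w) h)
  rw [ex_stepLaw]
  by_cases hC : Closed G D b Y T
  · have hU' := hU V G D hG Y hY b T S hb hC h1 h2
    have e0 : wt G D b a T S Y = a ^ mup b Y S := by unfold wt; rw [if_pos hC]
    rw [e0]
    have e1 : ∀ w, wt G D b a T S (bump Y w) ≤
        a ^ mup b Y S * (1 + a * if w ∈ S ∧ b ≤ Y w + 1 then 1 else 0) := by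
      intro w
      unfold wt
      split
      · rw [mup_bump]
        split
        · rw [pow_succ, mul_one]
          gcongr
          exact le_add_self
        · simp
      · exact zero_le
    have e2 : ∀ u, ex (walk G Y u) (fun w => wt G D b a T S (bump Y w)) ≤
        a ^ mup b Y S * (1 + a * ex (walk G Y u)
          (fun w => if w ∈ S ∧ b ≤ Y w + 1 then 1 else 0)) := by
      intro u
      refine (ex_mono _ fun w _ => e1 w).trans ?_
      rw [ex_mul_left, ex_add, ex_const, ex_mul_left]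
    calc ∑ u, q u * ex (walk G Y u) (fun w => wt G D b a T S (bump Y w))
        ≤ ∑ u, q u * (a ^ mup b Y S * (1 + a * ex (walk G Y u)
          (fun w => if w ∈ S ∧ b ≤ Y w + 1 then 1 else 0))) := by
          gcongr with u _
          exact e2 u
      _ = a ^ mup b Y S * (∑ u, q u + a * ∑ u, q u * ex (walk G Y u)
          (fun w => if w ∈ S ∧ b ≤ Y w + 1 then 1 else 0)) := by
          rw [Finset.mul_sum (s := Finset.univ) (a := a), ← Finset.sum_add_distrib,
            Finset.mul_sum]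
          refine Finset.sum_congr rfl fun u _ => ?_
          ring
      _ ≤ a ^ mup b Y S * (1 + a * ∑ u, Q * ex (walk G Y u)
          (fun w => if w ∈ S ∧ b ≤ Y w + 1 then 1 else 0)) := by
          gcongr with u _
          · have := q.tsum_coe
            rw [tsum_fintype] at this
            exact this.le
          · exact hq u
      _ ≤ a ^ mup b Y S * (1 + a * (Q * (6 * S.card))) := by
          rw [← Finset.mul_sum]
          gcongr
      _ = a ^ mup b Y S * (1 + 6 * Q * a * S.card) := by ring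
  · have : ∀ u, ex (walk G Y u) (fun w => wt G D b a T S (bump Y w)) = 0 := by
      intro u
      rw [ex_congr (walk G Y u) (g := fun _ => 0) fun w _ => h0 w hC, ex_const]
    simp [this]

theorem bernoulli (x : ℝ≥0∞) (s : ℕ) : 1 + x * s ≤ (1 + x) ^ s := by
  induction s with
  | zero => simp
  | succ s ih =>
    have h1 : (1 : ℝ≥0∞) ≤ (1 + x) ^ s := one_le_pow₀ le_self_add
    calc 1 + x * ((s + 1 : ℕ) : ℝ≥0∞) = (1 + x * s) + x * 1 := by push_cast; ring
      _ ≤ (1 + x) ^ s + x * (1 + x) ^ s := by gcongr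
      _ = (1 + x) ^ (s + 1) := by ring

theorem one_add_pow_le_four {x : ℝ≥0∞} {m : ℕ} (h : m * x ≤ 1) : (1 + x) ^ m ≤ 4 := by
  rcases Nat.eq_zero_or_pos m with rfl | hm
  · rw [pow_zero]; norm_num
  have hx1 : x ≤ 1 := by
    refine le_trans ?_ h
    calc x = 1 * x := (one_mul x).symm
      _ ≤ m * x := by
        gcongr
        exact_mod_cast hm
  have hxt : x ≠ ⊤ := ne_top_of_le_ne_top ENNReal.one_ne_top hx1
  obtain ⟨r, hr, rfl⟩ : ∃ r : ℝ, 0 ≤ r ∧ ENNReal.ofReal r = x :=
    ⟨x.toReal, ENNReal.toReal_nonneg, ENNReal.ofReal_toReal hxt⟩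
  have h1 : (m : ℝ) * r ≤ 1 := by
    rw [← ENNReal.ofReal_natCast, ← ENNReal.ofReal_mul (by positivity),
      ← ENNReal.ofReal_one, ENNReal.ofReal_le_ofReal_iff (by norm_num)] at h
    exact h
  rw [← ENNReal.ofReal_one, ← ENNReal.ofReal_add (by norm_num) hr,
    ← ENNReal.ofReal_pow (by positivity)]
  rw [show (4 : ℝ≥0∞) = ENNReal.ofReal 4 by simp]
  apply ENNReal.ofReal_le_ofReal
  calc (1 + r) ^ m ≤ Real.exp r ^ m := by
        gcongr
        have := Real.add_one_le_exp r
        linarith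
    _ = Real.exp (m * r) := by rw [← Real.exp_nat_mul]
    _ ≤ Real.exp 1 := Real.exp_le_exp.2 h1
    _ ≤ 4 := by
        have := Real.exp_one_lt_d9
        linarith

theorem K_pow_le {Q a : ℝ≥0∞} {m : ℕ} (h : 6 * m * Q * a ≤ 1) (s : ℕ) :
    (1 + 6 * Q * a * s) ^ m ≤ 4 ^ s := by
  have h1 : (1 + 6 * Q * a) ^ m ≤ 4 := by
    apply one_add_pow_le_four
    calc (m : ℝ≥0∞) * (6 * Q * a) = 6 * m * Q * a := by ring
      _ ≤ 1 := h
  calc (1 + 6 * Q * a * s) ^ m ≤ ((1 + 6 * Q * a) ^ s) ^ m := by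
        gcongr
        exact bernoulli _ s
    _ = ((1 + 6 * Q * a) ^ m) ^ s := by rw [← pow_mul, ← pow_mul, Nat.mul_comm s m]
    _ ≤ 4 ^ s := by gcongr

theorem dl_le_one (D : ℕ) : dl D ≤ 1 := by
  unfold dl
  rw [ENNReal.inv_le_one]
  apply one_le_pow₀
  exact le_add_self

/-- the potential of a fixed pair after one phase -/
theorem partA (hU : UprStmt) {G : SimpleGraph V} {D : ℕ} (hG : Reg G D) {q : PMF V}
    {Q a : ℝ≥0∞} (hq : ∀ u, q u ≤ Q) {m : ℕ} (hm : 6 * m * Q * a ≤ 1) {P : PMF (V → ℕ)}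
    (hP : ∀ X ∈ P.support, Smooth G X) {b : ℕ} (hb : 1 ≤ b) {T S : Finset V} (h1 : T ⊆ S)
    (h2 : S ⊆ T ∪ BdSet G D T)
    (hS : ex P (fun X => a ^ mup b X S) ≤ (1 + dl D) ^ S.card) :
    ex (P.bind (chain G q m)) (wt G D b a T S) ≤ 8 ^ S.card := by
  rw [ex_bind]
  set K : ℝ≥0∞ := 1 + 6 * Q * a * S.card with hK
  have key : ∀ X ∈ P.support, ex (chain G q m X) (wt G D b a T S) ≤
      a ^ mup b X S * K ^ m := by
    intro X hX
    have := ex_chain_le (q := q) (m := m) (hP X hX)
      (fun i Y => wt G D b a T S Y * K ^ (m - i)) ?_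
    · simp only [Nat.sub_self, pow_zero, mul_one, Nat.sub_zero] at this
      refine this.trans ?_
      gcongr
      unfold wt
      split
      · exact le_refl _
      · exact zero_le
    · intro i hi Y hY
      rw [ex_mul_right]
      have hs := step_le hU hG (a := a) hq hb h1 h2 hY
      calc ex (stepLaw G q Y) (wt G D b a T S) * K ^ (m - (i + 1))
          ≤ wt G D b a T S Y * K * K ^ (m - (i + 1)) := by gcongr
        _ = wt G D b a T S Y * K ^ (m - i) := by
            rw [mul_assoc, ← pow_succ']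
            congr 2
            omega
  calc ex P (fun X => ex (chain G q m X) (wt G D b a T S))
      ≤ ex P (fun X => a ^ mup b X S * K ^ m) := ex_mono P key
    _ = ex P (fun X => a ^ mup b X S) * K ^ m := ex_mul_right _ _ _
    _ ≤ (1 + dl D) ^ S.card * 4 ^ S.card := mul_le_mul' hS (K_pow_le hm S.card)
    _ = ((1 + dl D) * 4) ^ S.card := by rw [mul_pow]
    _ ≤ 8 ^ S.card := by
        gcongr
        calc (1 + dl D) * 4 ≤ (1 + 1) * 4 := by
              gcongr
              exact dl_le_one D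
          _ = 8 := by norm_num

/-- the sets over which the closure ranges -/
def clFam (G : SimpleGraph V) (D : ℕ) (A : Finset V) : Finset (Finset V) :=
  Finset.univ.filter fun T => ∃ (W : Finset V) (Gp : V → Finset V), Pieces G A T W Gp ∧
    ∀ w ∈ W, D ≤ 8 * (Gp w).card

omit [Fintype V] in
theorem mup_succ_le {b : ℕ} {X : V → ℕ} {A T : Finset V} (hT : ∀ t ∈ T, b ≤ X t) :
    mup (b + 1) X A + (T ∪ A.filter fun z => b + 1 ≤ X z).card ≤
      mup b X (T ∪ A.filter fun z => b + 1 ≤ X z) := by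
  set T' := A.filter fun z => b + 1 ≤ X z with hT'
  have h1 : mup (b + 1) X A = ∑ w ∈ T', (X w - b) := by
    unfold mup
    rw [hT', Finset.sum_filter]
    refine Finset.sum_congr rfl fun w _ => ?_
    split <;> omega
  have h2 : ∑ w ∈ T', (X w - b) ≤ ∑ w ∈ T ∪ T', (X w - b) :=
    Finset.sum_le_sum_of_subset (Finset.subset_union_right)
  have h3 : mup b X (T ∪ T') = ∑ w ∈ T ∪ T', (X w - b) + (T ∪ T').card := by
    unfold mup
    rw [Finset.card_eq_sum_ones, ← Finset.sum_add_distrib]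
    refine Finset.sum_congr rfl fun w hw => ?_
    have : b ≤ X w := by
      rcases Finset.mem_union.1 hw with h | h
      · exact hT w h
      · have := (Finset.mem_filter.1 h).2
        omega
    omega
  rw [h1, h3]
  omega

/-- the potential at the next level is bounded by the sum over pairs -/
theorem partB (hC : ClosStmt) {G : SimpleGraph V} {D : ℕ} (hG : Reg G D) {a : ℝ≥0∞}
    (ha : 1 ≤ a) (ha' : a ≠ ⊤) {X : V → ℕ} (hX : Smooth G X) (b : ℕ) (A : Finset V) :
    a ^ mup (b + 1) X A ≤ ∑ T ∈ clFam G D A, ∑ T' ∈ (BdSet G D T).powerset,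
      wt G D b a T (T ∪ T') X * a⁻¹ ^ (T ∪ T').card := by
  obtain ⟨T, W, Gp, h1, h2, h3, h4, h5⟩ := hC V G D hG X hX b A
  have hTmem : T ∈ clFam G D A := Finset.mem_filter.2 ⟨Finset.mem_univ _, W, Gp, h1, h2⟩
  have ha0 : a ≠ 0 := (lt_of_lt_of_le zero_lt_one ha).ne'
  set T' := A.filter fun z => b + 1 ≤ X z with hT'
  have hterm : a ^ mup (b + 1) X A ≤ wt G D b a T (T ∪ T') X * a⁻¹ ^ (T ∪ T').card := by
    unfold wt
    rw [if_pos h4]
    have h6 := mup_succ_le (A := A) h3
    rw [← hT'] at h6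
    calc a ^ mup (b + 1) X A = a ^ (mup (b + 1) X A + (T ∪ T').card) * a⁻¹ ^ (T ∪ T').card := by
          rw [pow_add, mul_assoc, ← mul_pow, ENNReal.mul_inv_cancel ha0 ha', one_pow, mul_one]
      _ ≤ a ^ mup b X (T ∪ T') * a⁻¹ ^ (T ∪ T').card := by
          gcongr
  refine hterm.trans ?_
  calc wt G D b a T (T ∪ T') X * a⁻¹ ^ (T ∪ T').card
      ≤ ∑ T' ∈ (BdSet G D T).powerset, wt G D b a T (T ∪ T') X * a⁻¹ ^ (T ∪ T').card :=
        Finset.single_le_sum
          (f := fun T' => wt G D b a T (T ∪ T') X * a⁻¹ ^ (T ∪ T').card)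
          (fun _ _ => zero_le) (Finset.mem_powerset.2 h5)
    _ ≤ _ := Finset.single_le_sum
          (f := fun T => ∑ T' ∈ (BdSet G D T).powerset,
            wt G D b a T (T ∪ T') X * a⁻¹ ^ (T ∪ T').card)
          (fun _ _ => zero_le) hTmem

theorem card_BdSet_le {G : SimpleGraph V} {D : ℕ} (hG : Reg G D) (T : Finset V) :
    (BdSet G D T).card ≤ 2 * T.card := by
  have h1 : ∀ z ∈ BdSet G D T, 7 * (D + 1) ≤ 8 * (cn G z ∩ T).card := by
    intro z hz
    have h2 := (Finset.mem_filter.1 hz).2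
    have h3 := Finset.card_inter_add_card_sdiff (cn G z) T
    rw [card_cn hG z] at h3
    rcases h2 with h2 | h2
    · rw [h2, Finset.card_empty] at h3
      omega
    · omega
  have h4 : ∑ z, (cn G z ∩ T).card = (D + 1) * T.card := by
    have : ∀ z, (cn G z ∩ T).card = ∑ t ∈ T, if t ∈ cn G z then 1 else 0 := by
      intro z
      rw [Finset.sum_ite_mem, Finset.sum_const, smul_eq_mul, mul_one, Finset.inter_comm]
    rw [Finset.sum_congr rfl fun z _ => this z, Finset.sum_comm]
    have h5 : ∀ t ∈ T, (∑ z, if t ∈ cn G z then 1 else 0) = D + 1 := by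
      intro t _
      rw [← card_cn hG t, Finset.card_eq_sum_ones, ← Finset.sum_filter]
      refine Finset.sum_congr ?_ fun _ _ => rfl
      ext z
      simp only [Finset.mem_filter, Finset.mem_univ, true_and]
      exact mem_cn_comm
    rw [Finset.sum_congr rfl h5, Finset.sum_const, smul_eq_mul, mul_comm]
  have h6 : (BdSet G D T).card * (7 * (D + 1)) ≤ 8 * ((D + 1) * T.card) := by
    rw [← h4, Finset.mul_sum, ← smul_eq_mul, ← Finset.sum_const]
    exact (Finset.sum_le_sum h1).trans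
      (Finset.sum_le_sum_of_subset (Finset.subset_univ _))
  have h7 : 0 < D + 1 := Nat.succ_pos D
  have h8 : (BdSet G D T).card * 7 ≤ 8 * T.card := by
    have : ((BdSet G D T).card * 7) * (D + 1) ≤ (8 * T.card) * (D + 1) := by
      calc _ = (BdSet G D T).card * (7 * (D + 1)) := by ring
        _ ≤ _ := h6
        _ = _ := by ring
    exact Nat.le_of_mul_le_mul_right this h7
  omega

end Up

/-! ### Numerical condition -/

/-- the weight of a piece of size `s` -/
def phu (D s : ℕ) : ℝ := if D ≤ 8 * s then (1 / 2) ^ (59 * s) else 0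

theorem phu_nonneg (D s : ℕ) : 0 ≤ phu D s := by
  unfold phu; split <;> positivity

theorem choose_phu_le {D s : ℕ} (hs : 1 ≤ s) :
    ((D + 1).choose s : ℝ) * phu D s ≤ (((D : ℝ) + 1) ^ 4)⁻¹ * (1 / 8) ^ s := by
  unfold phu
  split
  · rename_i h
    have h1 : ((D + 1).choose s : ℝ) ≤ 2 ^ (9 * s) := by
      have h2 : (D + 1).choose s ≤ 2 ^ (D + 1) := Nat.choose_le_two_pow (D + 1) s
      have h3 : 2 ^ (D + 1) ≤ 2 ^ (9 * s) := Nat.pow_le_pow_right (by norm_num) (by omega)
      exact_mod_cast h2.trans h3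
    have h4 : ((D : ℝ) + 1) ^ 4 ≤ 2 ^ (20 * s) := by
      have h5 : D + 1 ≤ 2 ^ (5 * s) := by
        have h6 : s < 2 ^ s := Nat.lt_two_pow_self
        have h7 : 16 ≤ 2 ^ (4 * s) := by
          calc 16 = 2 ^ 4 := by norm_num
            _ ≤ 2 ^ (4 * s) := Nat.pow_le_pow_right (by norm_num) (by omega)
        calc D + 1 ≤ 16 * s := by omega
          _ ≤ 2 ^ (4 * s) * 2 ^ s := Nat.mul_le_mul h7 h6.le
          _ = 2 ^ (5 * s) := by rw [← pow_add]; congr 1; ring
      have h8 : ((D : ℝ) + 1) ≤ 2 ^ (5 * s) := by exact_mod_cast h5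
      calc ((D : ℝ) + 1) ^ 4 ≤ (2 ^ (5 * s)) ^ 4 := by gcongr
        _ = 2 ^ (20 * s) := by rw [← pow_mul]; congr 1; ring
    have hpos : (0 : ℝ) < ((D : ℝ) + 1) ^ 4 := by positivity
    rw [le_inv_mul_iff₀ hpos]
    calc ((D : ℝ) + 1) ^ 4 * (((D + 1).choose s : ℝ) * (1 / 2) ^ (59 * s))
        ≤ 2 ^ (20 * s) * (2 ^ (9 * s) * (1 / 2) ^ (59 * s)) := by gcongr
      _ = (1 / 2) ^ (30 * s) := by
          have e : (1 / 2 : ℝ) ^ (59 * s) = (1 / 2) ^ (20 * s) * (1 / 2) ^ (9 * s) *
              (1 / 2) ^ (30 * s) := by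
            rw [← pow_add, ← pow_add]; congr 1; ring
          rw [e]
          have e1 : (2 : ℝ) ^ (20 * s) * (1 / 2) ^ (20 * s) = 1 := by
            rw [← mul_pow]; norm_num
          have e2 : (2 : ℝ) ^ (9 * s) * (1 / 2) ^ (9 * s) = 1 := by
            rw [← mul_pow]; norm_num
          calc _ = ((2 : ℝ) ^ (20 * s) * (1 / 2) ^ (20 * s)) *
                ((2 : ℝ) ^ (9 * s) * (1 / 2) ^ (9 * s)) * (1 / 2) ^ (30 * s) := by ring
            _ = _ := by rw [e1, e2]; ring
      _ ≤ (1 / 2) ^ (3 * s) := by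
          apply pow_le_pow_of_le_one (by norm_num) (by norm_num)
          omega
      _ = (1 / 8) ^ s := by rw [pow_mul]; norm_num
  · rw [mul_zero]; positivity

theorem phu_cond (D : ℕ) :
    ∑ s ∈ Finset.Icc 1 (D + 1), ((D + 1).choose s : ℝ≥0∞) * ENNReal.ofReal (phu D s) ≤
      ENNReal.ofReal (Real.exp (-1)) * dl D := by
  have h1 : ∀ s ∈ Finset.Icc 1 (D + 1), ((D + 1).choose s : ℝ≥0∞) * ENNReal.ofReal (phu D s) ≤
      ENNReal.ofReal ((((D : ℝ) + 1) ^ 4)⁻¹ * (1 / 8) ^ s) := by
    intro s hs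
    rw [Finset.mem_Icc] at hs
    rw [← ENNReal.ofReal_natCast, ← ENNReal.ofReal_mul (by positivity)]
    exact ENNReal.ofReal_le_ofReal (choose_phu_le hs.1)
  refine (Finset.sum_le_sum h1).trans ?_
  rw [← ENNReal.ofReal_sum_of_nonneg (fun _ _ => by positivity), ← Finset.mul_sum, dl_eq,
    ← ENNReal.ofReal_mul (Real.exp_pos _).le]
  apply ENNReal.ofReal_le_ofReal
  rw [mul_comm]
  exact mul_le_mul_of_nonneg_right (sum_eighth_le D) (by positivity)

/-! ### The module -/

theorem upph (hC : ClosStmt) (hU : UprStmt) (hE : EnumStmt) : UpphStmt := by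
  intro V _ G D hG q Q a hq ha ha' m hm P hP b hb hpot A
  have ha1 : 1 ≤ a := le_trans (by norm_num) ha
  have ha0 : a ≠ 0 := (lt_of_lt_of_le zero_lt_one ha1).ne'
  have hsm : ∀ X ∈ (P.bind (chain G q m)).support, Smooth G X := by
    intro X hX
    rw [PMF.mem_support_bind_iff] at hX
    obtain ⟨Y, hY, hX⟩ := hX
    exact smooth_of_chain (hP Y hY) hX
  have h8a : 8 * a⁻¹ ≤ 1 := by
    rw [← div_eq_mul_inv]
    apply ENNReal.div_le_of_le_mul
    rw [one_mul]
    exact le_trans (by norm_num) ha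
  have h32 : 4 * (8 * a⁻¹) ≤ ENNReal.ofReal ((1 / 2) ^ 59) := by
    have e1 : ENNReal.ofReal ((1 / 2) ^ 59) = 32 * (2 ^ 64)⁻¹ := by
      rw [show ((1 / 2 : ℝ) ^ 59) = 32 * (2 ^ 64)⁻¹ by norm_num,
        ENNReal.ofReal_mul (by norm_num), ENNReal.ofReal_inv_of_pos (by norm_num),
        ENNReal.ofReal_pow (by norm_num)]
      norm_num
    rw [e1, ← mul_assoc]
    have e2 : (4 : ℝ≥0∞) * 8 = 32 := by norm_num
    rw [e2]
    gcongr
  calc ex (P.bind (chain G q m)) (fun X => a ^ mup (b + 1) X A)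
      ≤ ex (P.bind (chain G q m)) (fun X => ∑ T ∈ clFam G D A,
          ∑ T' ∈ (BdSet G D T).powerset,
            wt G D b a T (T ∪ T') X * a⁻¹ ^ (T ∪ T').card) :=
        ex_mono _ fun X hX => partB hC hG ha1 ha' (hsm X hX) b A
    _ = ∑ T ∈ clFam G D A, ∑ T' ∈ (BdSet G D T).powerset,
          ex (P.bind (chain G q m)) (wt G D b a T (T ∪ T')) * a⁻¹ ^ (T ∪ T').card := by
        rw [ex_finset_sum]
        refine Finset.sum_congr rfl fun T _ => ?_
        rw [ex_finset_sum]
        refine Finset.sum_congr rfl fun T' _ => ?_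
        rw [ex_mul_right]
    _ ≤ ∑ T ∈ clFam G D A, ∑ T' ∈ (BdSet G D T).powerset, (8 * a⁻¹) ^ T.card := by
        refine Finset.sum_le_sum fun T _ => Finset.sum_le_sum fun T' hT' => ?_
        rw [Finset.mem_powerset] at hT'
        have := partA hU hG hq hm hP hb (Finset.subset_union_left : T ⊆ T ∪ T')
          (Finset.union_subset_union_right hT') (hpot (T ∪ T'))
        calc ex (P.bind (chain G q m)) (wt G D b a T (T ∪ T')) * a⁻¹ ^ (T ∪ T').card
            ≤ 8 ^ (T ∪ T').card * a⁻¹ ^ (T ∪ T').card := by gcongr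
          _ = (8 * a⁻¹) ^ (T ∪ T').card := by rw [mul_pow]
          _ ≤ (8 * a⁻¹) ^ T.card :=
              pow_le_pow_of_le_one zero_le h8a
                (Finset.card_le_card Finset.subset_union_left)
    _ ≤ ∑ T ∈ clFam G D A, (ENNReal.ofReal ((1 / 2) ^ 59)) ^ T.card := by
        refine Finset.sum_le_sum fun T _ => ?_
        rw [Finset.sum_const, Finset.card_powerset, nsmul_eq_mul]
        calc ((2 ^ (BdSet G D T).card : ℕ) : ℝ≥0∞) * (8 * a⁻¹) ^ T.card
            ≤ 4 ^ T.card * (8 * a⁻¹) ^ T.card := by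
              gcongr
              have : 2 ^ (BdSet G D T).card ≤ 4 ^ T.card := by
                calc 2 ^ (BdSet G D T).card ≤ 2 ^ (2 * T.card) :=
                      Nat.pow_le_pow_right (by norm_num) (card_BdSet_le hG T)
                  _ = 4 ^ T.card := by rw [pow_mul]; norm_num
              exact_mod_cast this
          _ = (4 * (8 * a⁻¹)) ^ T.card := by rw [mul_pow 4]
          _ ≤ _ := by gcongr
    _ ≤ (1 + dl D) ^ A.card := by
        refine hE V G D hG (fun s => ENNReal.ofReal (phu D s)) (phu_cond D) A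
          (fun T => (ENNReal.ofReal ((1 / 2) ^ 59)) ^ T.card) (clFam G D A) ?_
        intro T hT
        obtain ⟨W, Gp, h1, h2⟩ := (Finset.mem_filter.1 hT).2
        refine ⟨W, Gp, h1, ?_⟩
        have hcard : T.card = ∑ w ∈ W, (Gp w).card := by
          rw [← h1.union, Finset.card_biUnion]
          intro x hx y hy hxy
          exact h1.disj hx hy hxy
        rw [hcard, ← Finset.prod_pow_eq_pow_sum]
        refine le_of_eq (Finset.prod_congr rfl fun w hw => ?_)
        unfold phu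
        rw [if_pos (h2 w hw), ← ENNReal.ofReal_pow (by positivity), ← pow_mul]

end

end Helper9.LSA
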